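import Pool.Agent.Y333.RP.Gap

/-!
# Regularity of powers of the edge ideals under (im, reg)-invariant extensions

Definitions used (files `Pool.Agent.H677R3.RegKoszul` and `RegDeg`):
* `edgeIdeal k G` is the ideal of `k[x_0,…,x_{n-1}]` spanned by the `x_i x_j`, `i` adjacent to `j`;
* `koszulD` is the Koszul differential of the variables; a Koszul chain assigns to every finite
  set `T` of variables the coefficient of `e_T`;
* `TorNe J i e`: the Koszul homology `H_i(x_1,…,x_n; J) = Tor_i(J, k)` is nonzero in internal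
  degree `i + e`;
* `IsReg J r`: `r` is the greatest `e` such that `TorNe J i e` for some `i`, i.e. `reg J = r`.
-/

set_option autoImplicit false

universe u

namespace Pool.Agent.Results.MP_3df448_al.InvariantExtensions

open Pool.Agent.H677R3.EdgeReg Pool.Agent.H677R3.Ab Pool.Agent.Y333.RP

/-- an induced matching: a set of pairwise disjoint edges of `G`, no two of them joined by an edge
of `G` -/
def IsInducedMatching {V : Type*} (G : SimpleGraph V) (M : Finset (Sym2 V)) : Prop :=
  (∀ e ∈ M, e ∈ G.edgeSet) ∧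
    ∀ e ∈ M, ∀ f ∈ M, e ≠ f → ∀ u ∈ e, ∀ v ∈ f, u ≠ v ∧ ¬ G.Adj u v

/-- `im G = t`: the greatest size of an induced matching is `t` -/
def InducedMatchingNumber {V : Type*} (G : SimpleGraph V) (t : ℕ) : Prop :=
  IsGreatest {s | ∃ M : Finset (Sym2 V), IsInducedMatching G M ∧ M.card = s} t

/-- `G'` is an (im, reg)-invariant extension of `G`: it has one more vertex, `G` is the subgraph
induced on the old vertices, and the induced matching number and the regularity of the edge ideal
over `k` are the same -/
def IsInvariantExtension (k : Type u) [Field k] {n : ℕ} (G : SimpleGraph (Fin n))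
    (G' : SimpleGraph (Fin (n + 1))) : Prop :=
  (∀ a b : Fin n, G'.Adj a.castSucc b.castSucc ↔ G.Adj a b) ∧
  (∀ t, InducedMatchingNumber G' t ↔ InducedMatchingNumber G t) ∧
  (∀ r, IsReg (edgeIdeal k G') r ↔ IsReg (edgeIdeal k G) r)

theorem gapFree_of_im {n : ℕ} {G : SimpleGraph (Fin n)} (h : InducedMatchingNumber G 1) :
    GapFree G ∧ ∃ u v, G.Adj u v := by
  classical
  constructor
  · intro a b c d hab hcd hac had hbc hbd
    by_contra hne
    push Not at hne
    obtain ⟨h1, h2, h3, h4⟩ := hne
    have hne' : s(a, b) ≠ s(c, d) := by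
      intro he
      rw [Sym2.eq_iff] at he
      rcases he with ⟨he, -⟩ | ⟨he, -⟩
      · exact hac he
      · exact had he
    have hM : IsInducedMatching G {s(a, b), s(c, d)} := by
      refine ⟨?_, ?_⟩
      · intro e he
        simp only [Finset.mem_insert, Finset.mem_singleton] at he
        rcases he with rfl | rfl
        · exact hab
        · exact hcd
      · intro e he f hf hef u hu v hv
        simp only [Finset.mem_insert, Finset.mem_singleton] at he hf
        rcases he with rfl | rfl <;> rcases hf with rfl | rfl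
        · exact absurd rfl hef
        · rw [Sym2.mem_iff] at hu hv
          rcases hu with rfl | rfl <;> rcases hv with rfl | rfl
          · exact ⟨hac, h1⟩
          · exact ⟨had, h2⟩
          · exact ⟨hbc, h3⟩
          · exact ⟨hbd, h4⟩
        · rw [Sym2.mem_iff] at hu hv
          rcases hu with rfl | rfl <;> rcases hv with rfl | rfl
          · exact ⟨hac.symm, fun h => h1 h.symm⟩
          · exact ⟨hbc.symm, fun h => h3 h.symm⟩
          · exact ⟨had.symm, fun h => h2 h.symm⟩
          · exact ⟨hbd.symm, fun h => h4 h.symm⟩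
        · exact absurd rfl hef
    have := h.2 ⟨_, hM, rfl⟩
    rw [Finset.card_pair hne'] at this
    omega
  · obtain ⟨M, hM, hc⟩ := h.1
    obtain ⟨e, rfl⟩ := Finset.card_eq_one.1 hc
    have he := hM.1 e (Finset.mem_singleton_self e)
    induction e using Sym2.ind with
    | _ x y => exact ⟨x, y, he⟩

/-- the regularity of the powers for a graph of induced matching number one -/
theorem isReg_pow (k : Type u) [Field k] {n : ℕ} {G : SimpleGraph (Fin n)}
    (h : InducedMatchingNumber G 1) {r : ℕ} (hr : IsReg (edgeIdeal k G) r) {q : ℕ} (hq : 1 ≤ q) :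
    IsReg ((edgeIdeal k G) ^ q) (max (r + q - 1) (2 * q)) := by
  obtain ⟨hgap, hE⟩ := gapFree_of_im h
  obtain ⟨r', σ, h1, h2, h3, h4⟩ := formula' k G hE
  have hσ : σ = 1 := (sigma_eq_one_iff k G σ h2).2 hgap
  have hrr : r' = r := h1.unique hr
  have h5 := h4 q hq
  rw [hσ, hrr] at h5
  rwa [show 2 * q - 1 + 1 = 2 * q by omega] at h5

/-- (1) If two graphs have induced matching number one and the regularities of their edge ideals
over `k` agree, then so do the regularities of all the powers.
(2) In particular this holds for a gap-free graph and each of its (im, reg)-invariant extensions.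
(3) If moreover `reg I(G)^q = 2q` for all `q ≥ c`, then `reg I(G')^q = 2q` for all `q ≥ c`. -/
theorem result (k : Type u) [Field k] :
    (∀ (n m : ℕ) (G : SimpleGraph (Fin n)) (H : SimpleGraph (Fin m)),
      InducedMatchingNumber G 1 → InducedMatchingNumber H 1 →
      (∀ r, IsReg (edgeIdeal k H) r ↔ IsReg (edgeIdeal k G) r) →
      ∀ q : ℕ, 1 ≤ q → ∀ s, IsReg (edgeIdeal k H ^ q) s ↔ IsReg (edgeIdeal k G ^ q) s) ∧
    (∀ (n : ℕ) (G : SimpleGraph (Fin n)) (G' : SimpleGraph (Fin (n + 1))),
      InducedMatchingNumber G 1 → IsInvariantExtension k G G' →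
      ∀ q : ℕ, 1 ≤ q → ∀ s, IsReg (edgeIdeal k G' ^ q) s ↔ IsReg (edgeIdeal k G ^ q) s) ∧
    (∀ (n : ℕ) (G : SimpleGraph (Fin n)) (G' : SimpleGraph (Fin (n + 1))),
      InducedMatchingNumber G 1 → IsInvariantExtension k G G' →
      ∀ c : ℕ, 1 ≤ c → (∀ q : ℕ, c ≤ q → IsReg (edgeIdeal k G ^ q) (2 * q)) →
        ∀ q : ℕ, c ≤ q → IsReg (edgeIdeal k G' ^ q) (2 * q)) := by
  have key : ∀ (n m : ℕ) (G : SimpleGraph (Fin n)) (H : SimpleGraph (Fin m)),
      InducedMatchingNumber G 1 → InducedMatchingNumber H 1 →
      (∀ r, IsReg (edgeIdeal k H) r ↔ IsReg (edgeIdeal k G) r) →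
      ∀ q : ℕ, 1 ≤ q → ∀ s, IsReg (edgeIdeal k H ^ q) s ↔ IsReg (edgeIdeal k G ^ q) s := by
    intro n m G H hG hH hr q hq s
    obtain ⟨r, σ, h1, -⟩ := formula' k G (gapFree_of_im hG).2
    have e1 := isReg_pow k hG h1 hq
    have e2 := isReg_pow k hH ((hr r).2 h1) hq
    constructor
    · intro h
      rw [h.unique e2]
      exact e1
    · intro h
      rw [h.unique e1]
      exact e2
  refine ⟨key, ?_, ?_⟩
  · intro n G G' hG hG' q hq s
    exact key n (n + 1) G G' hG ((hG'.2.1 1).2 hG) hG'.2.2 q hq s
  · intro n G G' hG hG' c hc h q hq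
    exact (key n (n + 1) G G' hG ((hG'.2.1 1).2 hG) hG'.2.2 q (hc.trans hq) _).2 (h q hq)

end Pool.Agent.Results.MP_3df448_al.InvariantExtensions
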